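import Pool.Agent.H41.FD.Stm

/-!
# Project FD (helper41): the convergent case, a model with few elements
-/

set_option autoImplicit false

namespace Pool.Agent.H76.FD

open MeasureTheory Filter Topology ProbabilityTheory Pool.Agent.H41.FD
open Pool.Agent.H41.LD (Past Future RangeDep)

/-- the length of the blocks -/
def L (d : ℕ → ℕ) (s : ℕ) : ℕ := min (1 + d (2 ^ s)) (2 ^ s)

theorem L_pos (d : ℕ → ℕ) (s : ℕ) : 0 < L d s := lt_min (by omega) (by positivity)

/-- the block of `k` -/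
def bl (d : ℕ → ℕ) (k : ℕ) : ℕ × ℕ :=
  if k = 0 then (0, 0) else (Nat.log 2 k, (k - 2 ^ Nat.log 2 k) / L d (Nat.log 2 k) + 1)

theorem bl_zero (d : ℕ → ℕ) : bl d 0 = (0, 0) := if_pos rfl

theorem bl_pos (d : ℕ → ℕ) {k : ℕ} (hk : k ≠ 0) :
    bl d k = (Nat.log 2 k, (k - 2 ^ Nat.log 2 k) / L d (Nat.log 2 k) + 1) := if_neg hk

theorem bl_ne {d : ℕ → ℕ} (hd : Monotone d) {n m k : ℕ} (hm : m ≤ n) (hk : n + d n < k) :
    bl d m ≠ bl d k := by
  intro h
  have hk0 : k ≠ 0 := by omega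
  rw [bl_pos d hk0] at h
  rcases eq_or_ne m 0 with rfl | hm0
  · rw [bl_zero, Prod.mk.injEq] at h
    exact absurd h.2.symm (Nat.succ_ne_zero _)
  · rw [bl_pos d hm0, Prod.mk.injEq] at h
    obtain ⟨h1, h2⟩ := h
    have h3 := Nat.pow_log_le_self 2 hm0
    have h4 := Nat.pow_log_le_self 2 hk0
    rw [h1] at h2 h3
    have h5 := Nat.div_mul_le_self (m - 2 ^ Nat.log 2 k) (L d (Nat.log 2 k))
    have h6 := Nat.lt_mul_div_succ (k - 2 ^ Nat.log 2 k) (L_pos d (Nat.log 2 k))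
    have h7 : (m - 2 ^ Nat.log 2 k) / L d (Nat.log 2 k) = (k - 2 ^ Nat.log 2 k) / L d (Nat.log 2 k) := by
      omega
    rw [← h7] at h6
    have h8 : L d (Nat.log 2 k) ≤ 1 + d (2 ^ Nat.log 2 k) := min_le_left _ _
    have h9 : d (2 ^ Nat.log 2 k) ≤ d n := hd (h3.trans hm)
    have h10 : L d (Nat.log 2 k) * ((m - 2 ^ Nat.log 2 k) / L d (Nat.log 2 k) + 1) =
        (m - 2 ^ Nat.log 2 k) / L d (Nat.log 2 k) * L d (Nat.log 2 k) + L d (Nat.log 2 k) := by ring
    rw [h10] at h6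
    omega

/-- the uniform distribution -/
noncomputable def unif : Measure ℝ := volume.restrict (Set.Icc (0 : ℝ) 1)

instance : IsProbabilityMeasure unif := ⟨by
  rw [unif, Measure.restrict_apply MeasurableSet.univ, Set.univ_inter, Real.volume_Icc]
  norm_num⟩

theorem unif_Iic {c : ℝ} (h0 : 0 ≤ c) (h1 : c ≤ 1) : unif (Set.Iic c) = ENNReal.ofReal c := by
  rw [unif, Measure.restrict_apply measurableSet_Iic]
  have : Set.Iic c ∩ Set.Icc (0 : ℝ) 1 = Set.Icc 0 c := by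
    ext x
    simp only [Set.mem_inter_iff, Set.mem_Iic, Set.mem_Icc]
    constructor
    · rintro ⟨h2, h3, -⟩
      exact ⟨h3, h2⟩
    · rintro ⟨h2, h3⟩
      exact ⟨h3, h2, h3.trans h1⟩
  rw [this, Real.volume_Icc, sub_zero]

/-- the probability measure -/
noncomputable def PP : Measure (ℕ × ℕ → ℝ) := Measure.infinitePi fun _ => unif

instance : IsProbabilityMeasure PP := by unfold PP; infer_instance

theorem PP_le (p : ℕ × ℕ) {c : ℝ} (h0 : 0 ≤ c) (h1 : c ≤ 1) : PP {ω | ω p ≤ c} = ENNReal.ofReal c := by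
  have h := measurePreserving_eval_infinitePi (fun _ : ℕ × ℕ => unif) p
  rw [← unif_Iic h0 h1, ← h.measure_preimage measurableSet_Iic.nullMeasurableSet]
  rfl

/-- the events -/
def EE (d : ℕ → ℕ) (k : ℕ) : Set (ℕ × ℕ → ℝ) := {ω | ω (bl d k) ≤ 1 / ((k : ℝ) + 1)}

theorem one_div_le (k : ℕ) : 1 / ((k : ℝ) + 1) ≤ 1 := by
  rw [div_le_one (by positivity)]
  have : (0 : ℝ) ≤ k := Nat.cast_nonneg k
  linarith

theorem PP_EE (d : ℕ → ℕ) (k : ℕ) : PP (EE d k) = ENNReal.ofReal (1 / ((k : ℝ) + 1)) :=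
  PP_le _ (by positivity) (one_div_le k)

/-- the σ-algebra of a coordinate -/
def mc (p : ℕ × ℕ) : MeasurableSpace (ℕ × ℕ → ℝ) :=
  MeasurableSpace.comap (fun ω => ω p) inferInstance

theorem mc_le (p : ℕ × ℕ) : mc p ≤ MeasurableSpace.pi := (measurable_pi_apply p).comap_le

theorem iIndep_mc : iIndep mc PP := by
  have h := iIndepFun_infinitePi (P := fun _ : ℕ × ℕ => unif) (X := fun _ x => x)
    (fun _ => measurable_id)
  exact h.iIndep

theorem EE_meas (d : ℕ → ℕ) (k : ℕ) : MeasurableSet[mc (bl d k)] (EE d k) :=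
  ⟨Set.Iic (1 / ((k : ℝ) + 1)), measurableSet_Iic, rfl⟩

theorem range_dep {d : ℕ → ℕ} (hd : Monotone d) : RangeDep PP (EE d) d := by
  refine ⟨fun k => mc_le _ _ (EE_meas d k), fun n => ?_⟩
  have h1 : Disjoint (bl d '' {k | k ≤ n}) (bl d '' {k | n + d n < k}) := by
    rw [Set.disjoint_left]
    rintro p ⟨m, hm, rfl⟩ ⟨k, hk, h⟩
    exact bl_ne hd hm hk h.symm
  have h2 := indep_iSup_of_disjoint mc_le iIndep_mc h1
  refine indep_of_indep_of_le_left (indep_of_indep_of_le_right h2 ?_) ?_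
  · refine MeasurableSpace.generateFrom_le ?_
    rintro s ⟨k, hk, rfl⟩
    exact (le_iSup₂ (f := fun i (_ : i ∈ bl d '' {k | n + d n < k}) => mc i) (bl d k) ⟨k, hk, rfl⟩) _
      (EE_meas d k)
  · refine MeasurableSpace.generateFrom_le ?_
    rintro s ⟨k, hk, rfl⟩
    exact (le_iSup₂ (f := fun i (_ : i ∈ bl d '' {k | k ≤ n}) => mc i) (bl d k) ⟨k, hk, rfl⟩) _
      (EE_meas d k)

/-- the number of blocks -/
def N (d : ℕ → ℕ) (s : ℕ) : ℕ := 2 ^ s / L d s + 1

theorem block_prob (d : ℕ → ℕ) (s : ℕ) :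
    PP {ω | ∃ k, k ≠ 0 ∧ Nat.log 2 k = s ∧ ω ∈ EE d k} ≤
      ENNReal.ofReal (1 / (1 + d (2 ^ s)) + 2 * (1 / 2) ^ s) := by
  have hsub : {ω : ℕ × ℕ → ℝ | ∃ k, k ≠ 0 ∧ Nat.log 2 k = s ∧ ω ∈ EE d k} ⊆
      ⋃ j ∈ Finset.range (N d s), {ω | ω (s, j + 1) ≤ (1 / 2 : ℝ) ^ s} := by
    rintro ω ⟨k, hk, rfl, hω⟩
    have h1 := Nat.pow_log_le_self 2 hk
    have h2 := Nat.lt_pow_succ_log_self one_lt_two k
    refine Set.mem_biUnion (x := (k - 2 ^ Nat.log 2 k) / L d (Nat.log 2 k)) ?_ ?_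
    · rw [Finset.mem_coe, Finset.mem_range, N]
      refine Nat.lt_succ_of_le (Nat.div_le_div_right ?_)
      rw [Nat.pow_succ] at h2
      omega
    · show ω (Nat.log 2 k, (k - 2 ^ Nat.log 2 k) / L d (Nat.log 2 k) + 1) ≤ (1 / 2 : ℝ) ^ Nat.log 2 k
      have h3 : ω (bl d k) ≤ 1 / ((k : ℝ) + 1) := hω
      rw [bl_pos d hk] at h3
      refine h3.trans ?_
      rw [one_div_pow]
      refine one_div_le_one_div_of_le (by positivity) ?_
      have h4 : ((2 ^ Nat.log 2 k : ℕ) : ℝ) ≤ (k : ℝ) := Nat.cast_le.2 h1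
      push_cast at h4
      linarith
  have hp1 : (1 / 2 : ℝ) ^ s ≤ 1 := pow_le_one₀ (by norm_num) (by norm_num)
  calc PP {ω | ∃ k, k ≠ 0 ∧ Nat.log 2 k = s ∧ ω ∈ EE d k}
      ≤ ∑ j ∈ Finset.range (N d s), PP {ω | ω (s, j + 1) ≤ (1 / 2 : ℝ) ^ s} :=
        (measure_mono hsub).trans (measure_biUnion_finset_le _ _)
    _ = ∑ j ∈ Finset.range (N d s), ENNReal.ofReal ((1 / 2 : ℝ) ^ s) :=
        Finset.sum_congr rfl fun j _ => PP_le _ (by positivity) hp1
    _ = ENNReal.ofReal (N d s * (1 / 2 : ℝ) ^ s) := by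
        rw [Finset.sum_const, Finset.card_range, nsmul_eq_mul, ENNReal.ofReal_mul (Nat.cast_nonneg _),
          ENNReal.ofReal_natCast]
    _ ≤ _ := by
        refine ENNReal.ofReal_le_ofReal ?_
        have hL : (0 : ℝ) < L d s := Nat.cast_pos.2 (L_pos d s)
        have h1 : (N d s : ℝ) ≤ 2 ^ s / L d s + 1 := by
          rw [N]
          push_cast
          have := @Nat.cast_div_le ℝ _ _ _ (2 ^ s) (L d s)
          push_cast at this
          linarith
        have h2 : (1 : ℝ) / L d s ≤ 1 / (1 + d (2 ^ s)) + (1 / 2) ^ s := by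
          rcases min_choice (1 + d (2 ^ s)) (2 ^ s) with h | h
          · rw [L, h]
            push_cast
            have : (0 : ℝ) ≤ (1 / 2) ^ s := by positivity
            linarith
          · rw [L, h]
            push_cast
            have : (0 : ℝ) ≤ 1 / (1 + d (2 ^ s)) := by positivity
            rw [one_div_pow]
            linarith
        have h3 : (2 : ℝ) ^ s * (1 / 2) ^ s = 1 := by
          rw [← mul_pow]
          norm_num
        have hp : (0 : ℝ) ≤ (1 / 2) ^ s := by positivity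
        calc (N d s : ℝ) * (1 / 2) ^ s ≤ (2 ^ s / L d s + 1) * (1 / 2) ^ s :=
              mul_le_mul_of_nonneg_right h1 hp
          _ = (2 ^ s * (1 / 2) ^ s) * (1 / L d s) + (1 / 2) ^ s := by ring
          _ = 1 / L d s + (1 / 2) ^ s := by rw [h3, one_mul]
          _ ≤ _ := by linarith

theorem b : S_B := by
  intro d hd hs
  refine ⟨ℕ × ℕ → ℝ, inferInstance, PP, inferInstance, EE d, range_dep hd, fun k => ?_, ?_⟩
  · rw [Measure.real, PP_EE, ENNReal.toReal_ofReal (by positivity)]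
  · have h1 : Summable fun s : ℕ => 1 / (1 + (d (2 ^ s) : ℝ)) := by
      have h2 := (summable_condensed_iff_of_nonneg (f := fun k : ℕ => 1 / ((k : ℝ) * (1 + d k)))
        (fun k => by positivity) (fun m n hm hmn => by
          have hm' : (0 : ℝ) < m := Nat.cast_pos.2 hm
          have h3 : (m : ℝ) ≤ n := Nat.cast_le.2 hmn
          have h4 : (d m : ℝ) ≤ d n := Nat.cast_le.2 (hd hmn)
          refine one_div_le_one_div_of_le (by positivity) ?_
          refine mul_le_mul h3 (by linarith) (by positivity) (by linarith))).2 hs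
      refine h2.congr fun s => ?_
      push_cast
      have : (1 : ℝ) + d (2 ^ s) ≠ 0 := by positivity
      field_simp
    have h2 : Summable fun s : ℕ => 1 / (1 + (d (2 ^ s) : ℝ)) + 2 * (1 / 2) ^ s :=
      h1.add ((summable_geometric_of_lt_one (by norm_num) (by norm_num)).mul_left 2)
    have h3 : ∑' s : ℕ, PP {ω | ∃ k, k ≠ 0 ∧ Nat.log 2 k = s ∧ ω ∈ EE d k} ≠ ⊤ :=
      ne_top_of_le_ne_top h2.tsum_ofReal_ne_top (ENNReal.tsum_le_tsum fun s => block_prob d s)
    have h4 := measure_setOfPred_frequently_eq_zero h3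
    have h5 : ∀ᵐ ω ∂PP, ¬ ∃ᶠ s in atTop, ∃ k, k ≠ 0 ∧ Nat.log 2 k = s ∧ ω ∈ EE d k := by
      rw [ae_iff]
      simpa only [not_not] using h4
    filter_upwards [h5] with ω hω
    rw [not_frequently, eventually_atTop] at hω
    obtain ⟨s0, hs0⟩ := hω
    refine (Set.finite_Iio (2 ^ s0)).subset fun k hk => ?_
    rw [Set.mem_Iio]
    by_contra hlt
    push Not at hlt
    have hk0 : k ≠ 0 := by
      have : 0 < 2 ^ s0 := by positivity
      omega
    refine hs0 (Nat.log 2 k) ?_ ⟨k, hk0, rfl, hk⟩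
    exact (Nat.le_log_iff_pow_le one_lt_two hk0).2 hlt

end Pool.Agent.H76.FD
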